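import Mathlib
import Pool.Agent.H790R2.CampE

set_option autoImplicit false

open Filter Topology Set Complex Metric

namespace Pool.Agent.Results.MP_c4ccc8_an.Campbell

/-- Pommerenke's order of a function `f` which is locally univalent in the unit disc:
the supremum over `|z| < 1` of `|- conj z + (1 - |z|^2) f''(z) / (2 f'(z))|`
(in `[0, ∞]`, so that an infinite supremum is `∞`). -/
noncomputable def ord (f : ℂ → ℂ) : ENNReal :=
  ⨆ z ∈ ball (0 : ℂ) 1,
    ENNReal.ofReal ‖-(starRingEnd ℂ) z + (1 - (‖z‖ : ℂ) ^ 2) * deriv (deriv f) z / (2 * deriv f z)‖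

/-- The class `𝓤_α`: analytic, locally univalent, normalised, of order at most `α`. -/
structure InU (α : ℝ) (f : ℂ → ℂ) : Prop where
  analytic : AnalyticOnNhd ℂ f (ball 0 1)
  locally_univalent : ∀ z ∈ ball (0 : ℂ) 1, deriv f z ≠ 0
  map_zero : f 0 = 0
  deriv_zero : deriv f 0 = 1
  ord_le : ord f ≤ ENNReal.ofReal α

/-- Subordination `f ≺ F` in the unit disc: `f = F ∘ w` there, for an analytic `w` on the disc with
`|w z| ≤ |z|`. -/
def Subordinate (f F : ℂ → ℂ) : Prop :=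
  ∃ w : ℂ → ℂ, AnalyticOnNhd ℂ w (ball 0 1) ∧ (∀ z ∈ ball (0 : ℂ) 1, ‖w z‖ ≤ ‖z‖) ∧
    ∀ z ∈ ball (0 : ℂ) 1, f z = F (w z)

/-- Campbell's radius. -/
noncomputable def rho (α : ℝ) : ℝ := α + 1 - √(α ^ 2 + 2 * α)

/-- Campbell's conjecture: for every `α ≥ 1` (in particular for `1 < α < 1.65`), if `F ∈ 𝓤_α`,
`f ≺ F` and `f'(0) ≥ 0`, then `|f'(z)| ≤ |F'(z)|` for all `|z| < ρ(α)`. -/
theorem result : ∀ α : ℝ, 1 ≤ α → ∀ F f : ℂ → ℂ, InU α F → Subordinate f F →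
    (0 ≤ (deriv f 0).re ∧ (deriv f 0).im = 0) →
    ∀ z : ℂ, ‖z‖ < rho α → ‖deriv f z‖ ≤ ‖deriv F z‖ := by
  intro α hα F f hF hsub hf0 z hz
  obtain ⟨w, hw, hwz, hfw⟩ := hsub
  have hz1 : ‖z‖ < 1 := by
    have h1 : rho α < 1 := by
      unfold rho
      have : α < √(α ^ 2 + 2 * α) := by
        apply Real.lt_sqrt_of_sq_lt
        nlinarith
      linarith
    linarith
  have hzb : z ∈ ball (0:ℂ) 1 := by simpa using hz1
  have h00 : (0:ℂ) ∈ ball (0:ℂ) 1 := mem_ball_self one_pos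
  have hw0 : w 0 = 0 := by
    have := hwz 0 h00
    rw [norm_zero] at this
    exact norm_le_zero_iff.1 this
  have hder : ∀ ζ ∈ ball (0:ℂ) 1, deriv f ζ = deriv F (w ζ) * deriv w ζ := by
    intro ζ hζ
    have hwζ : w ζ ∈ ball (0:ℂ) 1 := by
      have h1 : ‖ζ‖ < 1 := by simpa using hζ
      have := hwz ζ hζ
      simpa using lt_of_le_of_lt this h1
    have h2 : f =ᶠ[𝓝 ζ] fun y => F (w y) := by
      filter_upwards [isOpen_ball.mem_nhds hζ] with y hy
      exact hfw y hy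
    rw [h2.deriv_eq]
    exact ((hF.analytic _ hwζ).differentiableAt.hasDerivAt.comp ζ
      (hw ζ hζ).differentiableAt.hasDerivAt).deriv
  have hord : ∀ ζ ∈ ball (0:ℂ) 1,
      ‖-(starRingEnd ℂ) ζ + (1 - (‖ζ‖ : ℂ) ^ 2) * deriv (deriv F) ζ / (2 * deriv F ζ)‖ ≤ α := by
    intro ζ hζ
    have h1 : ENNReal.ofReal ‖-(starRingEnd ℂ) ζ + (1 - (‖ζ‖ : ℂ) ^ 2) * deriv (deriv F) ζ / (2 * deriv F ζ)‖
        ≤ ord F := by
      unfold ord
      exact le_iSup₂ (f := fun z (_ : z ∈ ball (0 : ℂ) 1) => ENNReal.ofReal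
        ‖-(starRingEnd ℂ) z + (1 - (‖z‖ : ℂ) ^ 2) * deriv (deriv F) z / (2 * deriv F z)‖) ζ hζ
    exact (ENNReal.ofReal_le_ofReal_iff (by linarith)).1 (h1.trans hF.ord_le)
  have hwc : deriv w 0 = ((deriv f 0).re : ℂ) := by
    have h1 := hder 0 h00
    rw [hw0, hF.deriv_zero, one_mul] at h1
    rw [← h1]
    apply Complex.ext
    · simp
    · simpa using hf0.2
  rw [hder z hzb]
  exact Pool.Agent.H790R2.Campbell.main hα hF.analytic.differentiableOn hF.locally_univalent hord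
    hw.differentiableOn hwz hf0.1 hwc hzb hz

end Pool.Agent.Results.MP_c4ccc8_an.Campbell
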